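import Pool.Agent.Run7.h339.CS9
import Pool.Agent.W305.NC.Qu

set_option autoImplicit false

/-!
# Complex structures on two-step nilmanifolds with commutator group of dimension at most four

Let `G` be a simply connected two-step nilpotent Lie group of real dimension `2k` with
`dim [G, G] ≤ 4`. `G` is given by its Lie algebra: a real vector space `V` with a Lie bracket `β`
such that `[[x, y], z] = 0`, and the product of `G` is `x * y = x + y + [x, y] / 2`.

The only other assumption is that some component `φ ∘ β` of the bracket is nondegenerate modulo the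
centre (the Moore-Wolf condition: `G` has square integrable representations modulo the centre). There
is no condition on the other components of the bracket.

* `G` has a left-invariant complex structure: there is a `J : V → V` with `J² = -1` and vanishing
  Nijenhuis tensor.

* `G` has a global smooth system of coordinates with values in `ℂ ^ k` in which all left translations
  are complex affine maps.

* Let `M` be a smooth manifold of dimension `2k` which is a quotient of `G` by left translations, for
  example a compact nilmanifold `Γ \ G`. Then `M` carries a complex structure: `M` is diffeomorphic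
  to a complex manifold of dimension `k`.

The idea of the proof: let `β₁, …, β₄` be the components of the bracket and let `n` be the
codimension of the centre. The forms `β₁ + X β₃` and `β₂ + X β₄` over the field of rational functions
`ℝ(X)` form a pencil of alternating forms, the first one nondegenerate. Such a pencil has a basis
`p_i`, `q_i` of the space with `p_i ⊥ p_j`, `q_i ⊥ q_j` and `⟨p_i, q_j⟩ = ⟨p_j, q_i⟩` for both forms.
Hence the vectors `p_i + √-1 q_i` span an isotropic subspace. Put `X = s + ε √-1` with a general real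
`s` and a small `ε ≠ 0`: this gives a complex subspace of dimension `n / 2` which is isotropic for the
two complex forms `(β₁ + s β₃) + ε √-1 β₃` and `(β₂ + s β₄) + ε √-1 β₄`, and which contains no real
vectors, because its basis vectors are close to `p_i(s) + √-1 q_i(s)`.
-/

namespace Pool.Agent.Results.MP_1d980c_gt.MooreWolfDimFour

open Complex Module
open scoped Manifold ContDiff

/-- `β` is the Lie bracket of a two-step nilpotent (or abelian) Lie algebra: it is alternating, and
`[[x, y], z] = 0` for all `x`, `y`, `z`. -/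
structure IsTwoStep {V : Type} [AddCommGroup V] [Module ℝ V] (β : V →ₗ[ℝ] V →ₗ[ℝ] V) : Prop where
  alt : ∀ x, β x x = 0
  step : ∀ x y z, β (β x y) z = 0

/-- The dimension of the commutator algebra, the span of all `[x, y]`. -/
noncomputable def commutatorDim {V : Type} [AddCommGroup V] [Module ℝ V]
    (β : V →ₗ[ℝ] V →ₗ[ℝ] V) : ℕ :=
  finrank ℝ (Submodule.span ℝ {v | ∃ x y, β x y = v})

/-- The product `x * y = x + y + [x, y] / 2` of the simply connected Lie group with Lie algebra `V`
(the Baker-Campbell-Hausdorff product). -/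
noncomputable def mul {V : Type} [AddCommGroup V] [Module ℝ V] (β : V →ₗ[ℝ] V →ₗ[ℝ] V)
    (x y : V) : V :=
  x + y + (1 / 2 : ℝ) • β x y

theorem result (k : ℕ) (V : Type) [NormedAddCommGroup V] [NormedSpace ℝ V]
    [FiniteDimensional ℝ V] (hV : finrank ℝ V = 2 * k) (β : V →ₗ[ℝ] V →ₗ[ℝ] V)
    (h : IsTwoStep β) (hD : commutatorDim β ≤ 4)
    -- a component of the bracket which is nondegenerate modulo the centre
    (φ : V →ₗ[ℝ] ℝ) (hφ : ∀ x, (∀ y, φ (β x y) = 0) → ∀ y, β x y = 0) :
    -- a left-invariant complex structure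
    (∃ J : V →ₗ[ℝ] V, (∀ x, J (J x) = -x) ∧
      ∀ x y, β (J x) (J y) - J (β (J x) y) - J (β x (J y)) - β x y = 0) ∧
    -- global coordinates in which the left translations are complex affine
    (∃ Φ : V ≃ₜ EuclideanSpace ℂ (Fin k), ContDiff ℝ ∞ Φ ∧ ContDiff ℝ ∞ Φ.symm ∧
      ∀ g : V, ∃ (c : EuclideanSpace ℂ (Fin k))
        (L : EuclideanSpace ℂ (Fin k) →L[ℂ] EuclideanSpace ℂ (Fin k)),
        ∀ z, Φ (mul β g (Φ.symm z)) = c + L z) ∧
    -- smooth manifolds which are quotients by left translations carry complex structures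
    (∀ (M : Type) [TopologicalSpace M] [ChartedSpace (EuclideanSpace ℝ (Fin (2 * k))) M]
      [IsManifold (𝓡 (2 * k)) ∞ M] (Γ : Set V) (π : V → M), Function.Surjective π →
      IsLocalDiffeomorph 𝓘(ℝ, V) (𝓡 (2 * k)) ∞ π →
      (∀ x y, π x = π y ↔ ∃ γ ∈ Γ, mul β γ x = y) →
      ∃ (N : Type) (_ : TopologicalSpace N) (_ : ChartedSpace (EuclideanSpace ℂ (Fin k)) N),
        IsManifold 𝓘(ℂ, EuclideanSpace ℂ (Fin k)) ∞ N ∧
        Nonempty (Diffeomorph (𝓡 (2 * k)) 𝓘(ℝ, EuclideanSpace ℂ (Fin k)) M N ∞)) := by
  obtain ⟨J, Φ0, h1, h2, h3, h4, h5⟩ :=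
    Run7.h339.CS.coords_mw β h.alt h.step hV hD φ fun x hx => LinearMap.ext (hφ x hx)
  let Φ : V ≃ₜ EuclideanSpace ℂ (Fin k) :=
    { toEquiv := Φ0
      continuous_toFun := h3.continuous
      continuous_invFun := h4.continuous }
  have h5' : ∀ g : V, ∃ (c : EuclideanSpace ℂ (Fin k))
        (L : EuclideanSpace ℂ (Fin k) →L[ℂ] EuclideanSpace ℂ (Fin k)),
        ∀ z, Φ (mul β g (Φ.symm z)) = c + L z := h5
  refine ⟨⟨J, h1, h2⟩, ⟨Φ, h3, h4, h5'⟩, ?_⟩
  intro M _ _ _ Γ π hs hl hπ
  refine Pool.Agent.W305.NC.quotient Φ π hl h3 h4 {g | ∃ γ ∈ Γ, g = mul β γ} ?_ ?_ hs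
  · rintro g ⟨γ, -, rfl⟩
    obtain ⟨c, L, hL⟩ := h5' γ
    have : (fun z => Φ (mul β γ (Φ.symm z))) = fun z => c + L z := funext hL
    rw [this]
    exact contDiff_const.add L.contDiff
  · intro x y
    rw [hπ]
    constructor
    · rintro ⟨γ, hγ, hxy⟩
      exact ⟨mul β γ, ⟨γ, hγ, rfl⟩, hxy⟩
    · rintro ⟨g, ⟨γ, hγ, rfl⟩, hxy⟩
      exact ⟨γ, hγ, hxy⟩

end Pool.Agent.Results.MP_1d980c_gt.MooreWolfDimFour
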